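import Mathlib
import Pool.Agent.Y667.QKR.Mult
import Pool.Agent.W672.FK.Lowf
import Pool.Agent.W307.RT.Tors

/-!
# The rank over `ℚ(√f)` and the root numbers, for all primes `f ≡ 1` modulo 8

All elliptic curves `E` over `ℚ` with full rational 2-torsion, ordered by the naive height or by the
absolute value of the minimal discriminant. Let `f` be a prime congruent to 1 modulo 8 and `χ` the
character of `ℚ(√f)`. For a positive proportion of the curves (the lower density is positive) one of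
`w_E(1)`, `w_E(χ)` is `1`, with multiplicity zero in `E(F) ⊗ ℂ`, the other one is `-1`, with
multiplicity at most one, and the rank of `E` over `ℚ(√f)` is at most one.
-/

namespace Pool.Agent.Results.MP_775b3b_nt.RankQuadraticFields

open Finset Filter Topology WeierstrassCurve

/-- the curve `y² = x³ + A x + B` over `ℚ` -/
def E (A B : ℤ) : WeierstrassCurve ℚ := ⟨0, 0, 0, (A : ℚ), (B : ℚ)⟩

/-- the absolute value of the minimal discriminant of an elliptic curve `W` over `ℚ`: the smallest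
absolute value of the discriminant of a Weierstrass equation `V` with integer coefficients which is
isomorphic to `W` over `ℚ` -/
noncomputable def minDisc (W : WeierstrassCurve ℚ) : ℕ :=
  sInf {n : ℕ | ∃ (V : WeierstrassCurve ℤ) (C : WeierstrassCurve.VariableChange ℚ),
    C • W = V.map (Int.castRingHom ℚ) ∧ n = V.Δ.natAbs}

/-- the naive height of `y² = x³ + A x + B` is at most `Z` -/
def HeightLe (c : ℤ × ℤ) (Z : ℕ) : Prop := 4 * |c.1| ^ 3 ≤ Z ∧ 27 * c.2 ^ 2 ≤ Z

/-- the minimal discriminant of `y² = x³ + A x + B` is at most `Z` in absolute value -/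
def DiscLe (c : ℤ × ℤ) (Z : ℕ) : Prop := minDisc (E c.1 c.2) ≤ Z

/-- The pairs `(A, B)` of integers such that `4 A³ + 27 B² ≠ 0`, there is no prime `p` with
`p⁴ ∣ A` and `p⁶ ∣ B`, `Z/2 x Z/2` embeds in the group of the rational points of
`y² = x³ + A x + B`, and the size (`HeightLe` or `DiscLe`) is at most `Z`. Every elliptic curve over
`ℚ` with full rational 2-torsion is isomorphic to `E A B` for exactly one pair with the first three
properties. -/
def Fam (I : ℤ × ℤ → ℕ → Prop) (Z : ℕ) : Set (ℤ × ℤ) :=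
  {c : ℤ × ℤ | 4 * c.1 ^ 3 + 27 * c.2 ^ 2 ≠ 0 ∧
    (∀ p : ℕ, p.Prime → ¬ ((p : ℤ) ^ 4 ∣ c.1 ∧ (p : ℤ) ^ 6 ∣ c.2)) ∧
    (∃ f : ZMod 2 × ZMod 2 →+ (E c.1 c.2).toAffine.Point, Function.Injective f) ∧ I c Z}

/-- the proportion of the curves of `S` among the curves of size at most `Z` -/
noncomputable def proportion (I : ℤ × ℤ → ℕ → Prop) (S : Set (ℤ × ℤ)) (Z : ℕ) : ℝ :=
  ((Fam I Z ∩ S).ncard : ℝ) / (Fam I Z).ncard

lemma FamH_eq (H : ℕ) : Fam HeightLe H = (Pool.Agent.W307.RT.Cv 2 H : Set (ℤ × ℤ)) := by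
  classical
  ext c
  have h : Pool.Agent.W307.RT.HasT 2 (Pool.Agent.W307.RT.Sh c.1 c.2) ↔
    ∃ f : ZMod 2 × ZMod 2 →+ (E c.1 c.2).toAffine.Point, Function.Injective f :=
    Pool.Agent.W307.RT.tors_iff
  unfold Fam HeightLe Pool.Agent.W307.RT.Cv
  rw [Set.mem_ofPred_eq, mem_coe, mem_filter, h, mem_product, mem_Icc, mem_Icc]
  constructor
  · rintro ⟨h1, h2, h3, h4, h5⟩
    refine ⟨⟨?_, ?_⟩, h1, h4, h5, h2, h3⟩
    · rw [← abs_le]
      have h0 := abs_nonneg c.1
      rcases eq_or_lt_of_le h0 with h6 | h6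
      · rw [← h6]; positivity
      · have : 1 ≤ |c.1| := h6
        nlinarith [mul_nonneg h0 h0, mul_self_nonneg (|c.1| - 1)]
    · rw [← abs_le]
      have h0 := abs_nonneg c.2
      rw [← sq_abs] at h5
      rcases eq_or_lt_of_le h0 with h6 | h6
      · rw [← h6]; positivity
      · have : 1 ≤ |c.2| := h6
        nlinarith
  · rintro ⟨-, h1, h4, h5, h2, h3⟩
    exact ⟨h1, h2, h3, h4, h5⟩

lemma FamD_eq (D : ℕ) : Fam DiscLe D = (Pool.Agent.TH344.DS.Dv D : Set (ℤ × ℤ)) := by
  classical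
  have h0 : Fam DiscLe D = Pool.Agent.W307.RS.DvS 2 D := by
    ext c
    have h : Pool.Agent.W307.RT.HasT 2 (Pool.Agent.W307.RT.Sh c.1 c.2) ↔
        ∃ f : ZMod 2 × ZMod 2 →+ (E c.1 c.2).toAffine.Point, Function.Injective f :=
      Pool.Agent.W307.RT.tors_iff
    unfold Fam Pool.Agent.W307.RS.DvS
    rw [Set.mem_ofPred_eq, Set.mem_ofPred_eq, h]
    exact Iff.rfl
  rw [h0]
  unfold Pool.Agent.TH344.DS.Dv
  rw [dif_pos (Pool.Agent.TH344.DS.excd.1 D), Set.Finite.coe_toFinset]

/-- The number of these curves tends to infinity (ordering by height). -/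
lemma tendstoH : Tendsto (fun Z : ℕ => (Fam HeightLe Z).ncard) atTop atTop := by
  simp only [FamH_eq, Set.ncard_coe_finset]
  exact Pool.Agent.W307.RT.tendsto_of_low Pool.Agent.W672.FK.lowf

/-- The number of these curves tends to infinity (ordering by the minimal discriminant). -/
lemma tendstoD : Tendsto (fun Z : ℕ => (Fam DiscLe Z).ncard) atTop atTop := by
  have h1 := Pool.Agent.W307.RT.tendsto_of_low Pool.Agent.W672.FK.lowf
  have h2 : Tendsto (fun D : ℕ => (Pool.Agent.W307.RT.Cv 2 (D / 32)).card) atTop atTop :=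
    h1.comp (Nat.tendsto_div_const_atTop (by norm_num))
  obtain ⟨hD1, hD2, hD3⟩ := Pool.Agent.TH344.DS.excd
  refine tendsto_atTop_mono (fun D => ?_) h2
  have h3 : (Pool.Agent.TH344.DS.Dv D : Set (ℤ × ℤ)) = Pool.Agent.W307.RS.DvS 2 D := by
    unfold Pool.Agent.TH344.DS.Dv
    rw [dif_pos (hD1 D), Set.Finite.coe_toFinset]
  rw [FamD_eq, h3, ← Set.ncard_coe_finset]
  exact Set.ncard_le_ncard (Pool.Agent.W307.RS.Cv_sub Pool.Agent.W554.RS.mdl 2 (D / 32) D
    (Nat.mul_div_le D 32)) (hD1 D)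

/-- `a_p = p + 1 - #V(𝔽_p)`, that is `p` minus the number of the affine solutions of the Weierstrass
equation modulo `p`; for a prime of multiplicative reduction this is `1` (split) or `-1`
(non-split) -/
noncomputable def ap (V : WeierstrassCurve ℤ) (p : ℕ) : ℤ :=
  p - Nat.card {z : ZMod p × ZMod p // z.2 ^ 2 + V.a₁ * z.1 * z.2 + V.a₃ * z.2 =
    z.1 ^ 3 + V.a₂ * z.1 ^ 2 + V.a₄ * z.1 + V.a₆}

/-- the equation with integer coefficients is nonsingular over `ℚ` and at every prime the reduction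
is good or multiplicative (then it is a minimal equation) -/
def Semistable (V : WeierstrassCurve ℤ) : Prop :=
  V.Δ ≠ 0 ∧ ∀ p : ℕ, p.Prime → (p : ℤ) ∣ V.Δ → ¬ (p : ℤ) ∣ V.c₄

/-- the conductor of a semistable curve -/
def conductor (V : WeierstrassCurve ℤ) : ℕ := ∏ p ∈ V.Δ.natAbs.primeFactors, p

/-- The root number of a semistable curve: the product of the local root numbers `-1` at infinity
and `-a_p` at the primes of bad (multiplicative) reduction. -/
noncomputable def wSemi (V : WeierstrassCurve ℤ) : ℤ :=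
  -∏ p ∈ V.Δ.natAbs.primeFactors, (-ap V p)

/-- the quadratic twist by `d` of the curve `V` (the curve `y² = x³ + b₂ x² + 8 b₄ x + 16 b₆`) -/
def twist (V : WeierstrassCurve ℤ) (d : ℕ) : WeierstrassCurve ℚ :=
  ⟨0, (d : ℚ) * V.b₂, 0, 8 * (d : ℚ) ^ 2 * V.b₄, 16 * (d : ℚ) ^ 3 * V.b₆⟩

/-- `w` is the root number of `W`, for the quadratic twists `W` of a semistable curve `V` of conductor
`N` by a positive fundamental discriminant `d ≡ 1` modulo `4` prime to `N` (`d = 1` allowed): it is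
`χ_d(-N) w_V`, where `χ_d(-N) = χ_d(N)` is the Jacobi symbol `(N / d)` -/
def HasRootNumber (W : WeierstrassCurve ℚ) (w : ℤ) : Prop :=
  ∃ (V : WeierstrassCurve ℤ) (d : ℕ), Semistable V ∧ Squarefree d ∧ d % 4 = 1 ∧
    d.Coprime V.Δ.natAbs ∧ (∃ C : WeierstrassCurve.VariableChange ℚ, C • W = twist V d) ∧
    w = jacobiSym (conductor V) d * wSemi V

/-- the curve `y² = x³ + A x + B` over `F` -/
def EF (F : Type) [Field F] (A B : ℤ) : WeierstrassCurve F := ⟨0, 0, 0, (A : F), (B : F)⟩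

open Classical in
/-- The group of the points `P` of `W` over `F` with `σ P = χ(σ) P` for all `σ`. -/
noncomputable def Part (F : Type) [Field F] [NumberField F] (χ : (F ≃ₐ[ℚ] F) →* ℤˣ)
    (W : WeierstrassCurve ℚ) : AddSubgroup (W.baseChange F).toAffine.Point where
  carrier := {P | ∀ σ : F ≃ₐ[ℚ] F, Affine.Point.map (W' := W.toAffine) (σ : F →ₐ[ℚ] F) P =
    ((χ σ : ℤˣ) : ℤ) • P}
  zero_mem' := fun σ => by rw [map_zero, smul_zero]
  add_mem' := fun {P Q} hP hQ σ => by rw [map_add, hP σ, hQ σ, smul_add]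
  neg_mem' := fun {P} hP σ => by rw [map_neg, hP σ, smul_neg]

open Classical in
/-- The multiplicity of `χ` in `W(F) ⊗ ℂ`: the rank of `Part F χ W`. -/
noncomputable def mult (F : Type) [Field F] [NumberField F] (χ : (F ≃ₐ[ℚ] F) →* ℤˣ)
    (W : WeierstrassCurve ℚ) : ℕ :=
  Module.finrank ℤ (Part F χ W)

/-- the quadratic twist by `D` of the curve `y² = x³ + A x + B` -/
def twistE (c : ℤ × ℤ) (D : ℤ) : WeierstrassCurve ℚ := E (D ^ 2 * c.1) (D ^ 3 * c.2)

open Classical in
/-- The elliptic curves `E : y² = x³ + A x + B` such that the rank of `E` over `ℚ(√f)` is at most one,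
and for every Galois extension `F` of `ℚ` that contains a square root `s` of `f`, `χ` the character of
`ℚ(√f)`: either `w_E(1) = 1`, `w_E(χ) = -1` and the multiplicities of `1` and of `χ` in `E(F) ⊗ ℂ` are
`0` and at most `1`, or `w_E(1) = -1`, `w_E(χ) = 1` and they are at most `1` and `0`. Here `w_E(1)` is
the root number of `E` and `w_E(χ)` is the root number of the twist of `E` by `f`. -/
def Rule (f : ℕ) : Set (ℤ × ℤ) :=
  {c | (∀ (F : Type) [Field F] [NumberField F] (s : F), s ^ 2 = (f : F) →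
      IntermediateField.adjoin ℚ {s} = ⊤ → Module.finrank ℤ (EF F c.1 c.2).toAffine.Point ≤ 1) ∧
    ∀ (F : Type) [Field F] [NumberField F] [IsGalois ℚ F] (χ : (F ≃ₐ[ℚ] F) →* ℤˣ) (s : F),
      s ^ 2 = (f : F) → (∀ σ : F ≃ₐ[ℚ] F, σ s = (((χ σ : ℤˣ) : ℤ) : F) * s) →
        (HasRootNumber (twistE c 1) 1 ∧ HasRootNumber (twistE c f) (-1) ∧
          mult F 1 (E c.1 c.2) = 0 ∧ mult F χ (E c.1 c.2) ≤ 1) ∨
        (HasRootNumber (twistE c 1) (-1) ∧ HasRootNumber (twistE c f) 1 ∧
          mult F 1 (E c.1 c.2) ≤ 1 ∧ mult F χ (E c.1 c.2) = 0)}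

lemma rw_one {c : ℤ × ℤ} {w : ℤ} (h : Pool.Agent.Y667.QK.R.RW c w) :
    HasRootNumber (twistE c 1) w := by
  have e : twistE c 1 = E c.1 c.2 := by
    unfold twistE
    rw [one_pow, one_pow, one_mul, one_mul]
  rw [e]
  exact h

lemma rule_of {f : ℕ} (hf : f ≠ 0) {c : ℤ × ℤ} (hD : 4 * c.1 ^ 3 + 27 * c.2 ^ 2 ≠ 0)
    (hT : ∃ f : ZMod 2 × ZMod 2 →+ (E c.1 c.2).toAffine.Point, Function.Injective f)
    (h : Pool.Agent.Y667.QK.R.TQR f c) : c ∈ Rule f := by
  have hT' := Pool.Agent.W307.RT.tors_iff.2 hT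
  refine ⟨?_, ?_⟩
  · intro F _ _ s hs hgen
    exact Pool.Agent.Y667.QK.QF.rank_le hf hD hT' (Pool.Agent.Y667.QK.R.tq_of h) F s hs hgen
  · intro F _ _ _ χ s hs hσ
    obtain ⟨m1, m2⟩ := Pool.Agent.Y667.QK.R.mult_bd hf hD hT' F χ s hs hσ
    rcases h with ⟨w1, w2, r1, r2⟩ | ⟨w1, w2, r1, r2⟩
    · left
      rw [r1] at m1
      exact ⟨rw_one w1, w2, Nat.le_zero.1 m1, m2.trans r2⟩
    · right
      rw [r2] at m2
      exact ⟨rw_one w1, w2, m1.trans r1, Nat.le_zero.1 m2⟩

/-- **Theorem.** Order the elliptic curves over `ℚ` with full rational 2-torsion by the naive height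
or by the absolute value of the minimal discriminant. For both orderings there are finitely many
curves of size at most `Z`, their number tends to infinity with `Z`, and for every prime `f ≡ 1`
modulo 8 a positive proportion of them (the lower density is positive) has rank at most one over
`ℚ(√f)`, root numbers `w_E(1) = 1`, `w_E(χ) = -1` or conversely, multiplicity `0` for the character
with root number `1` and multiplicity at most `1` for the other. -/
theorem result : ∀ I : ℤ × ℤ → ℕ → Prop, I = HeightLe ∨ I = DiscLe →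
    (∀ Z : ℕ, (Fam I Z).Finite) ∧ Tendsto (fun Z : ℕ => (Fam I Z).ncard) atTop atTop ∧
    ∀ f : ℕ, f.Prime → f % 8 = 1 →
      ∃ δ : ℝ, 0 < δ ∧ ∀ᶠ Z : ℕ in atTop, δ ≤ proportion I (Rule f) Z := by
  classical
  have h0 : ∀ f : ℕ, f.Prime → f % 8 = 1 → ∃ c : ℝ, 0 < c ∧ ∃ H0 : ℕ, ∀ H : ℕ, H0 ≤ H →
      c * ((Pool.Agent.W307.RT.Cv 2 H).card : ℝ) ≤
        (((Pool.Agent.W307.RT.Cv 2 H).filter (Pool.Agent.Y667.QK.R.TQR f)).card : ℝ) := by
    intro f hf h8
    obtain ⟨c, hc, H0, h⟩ := Pool.Agent.Y667.QK.R.mainF hf h8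
    refine ⟨c, hc, H0, fun H hH => (h H hH).trans
      (Nat.cast_le.2 (card_le_card fun k hk => ?_))⟩
    rw [mem_filter] at hk ⊢
    exact hk
  have hsub : ∀ (I : ℤ × ℤ → ℕ → Prop) (Z f : ℕ) (k : ℤ × ℤ), f ≠ 0 → k ∈ Fam I Z →
      Pool.Agent.Y667.QK.R.TQR f k → k ∈ Fam I Z ∩ Rule f := by
    intro I Z f k hf hk hPk
    exact ⟨hk, rule_of hf hk.1 hk.2.2.1 hPk⟩
  intro I hI
  rcases hI with rfl | rfl
  · refine ⟨fun Z => ?_, tendstoH, ?_⟩
    · rw [FamH_eq]
      exact finite_toSet _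
    · intro f hf h8
      obtain ⟨c, hc, H0, h⟩ := h0 f hf h8
      refine ⟨c, hc, ?_⟩
      filter_upwards [eventually_ge_atTop H0, tendstoH.eventually_ge_atTop 1] with H hH hH1
      unfold proportion
      rw [le_div_iff₀ (by exact_mod_cast hH1)]
      have e1 : (Fam HeightLe H).ncard = (Pool.Agent.W307.RT.Cv 2 H).card := by
        rw [FamH_eq, Set.ncard_coe_finset]
      rw [e1]
      refine (h H hH).trans (Nat.cast_le.2 ?_)
      rw [← Set.ncard_coe_finset]
      refine Set.ncard_le_ncard (fun k hk => ?_) (Set.Finite.inter_of_left (by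
        rw [FamH_eq]
        exact finite_toSet _) _)
      rw [mem_coe, mem_filter] at hk
      refine hsub _ _ f k hf.ne_zero ?_ hk.2
      rw [FamH_eq, mem_coe]
      exact hk.1
  · refine ⟨fun Z => ?_, tendstoD, ?_⟩
    · rw [FamD_eq]
      exact finite_toSet _
    · intro f hf h8
      obtain ⟨c, hc, H0, h⟩ := Pool.Agent.Y667.RP.disc_of_height (Pool.Agent.Y667.QK.R.TQR f)
        (h0 f hf h8)
      refine ⟨c, hc, ?_⟩
      filter_upwards [eventually_ge_atTop H0, tendstoD.eventually_ge_atTop 1] with H hH hH1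
      unfold proportion
      rw [le_div_iff₀ (by exact_mod_cast hH1)]
      have e1 : (Fam DiscLe H).ncard = (Pool.Agent.TH344.DS.Dv H).card := by
        rw [FamD_eq, Set.ncard_coe_finset]
      rw [e1]
      refine (h H hH).trans (Nat.cast_le.2 ?_)
      rw [← Set.ncard_coe_finset]
      refine Set.ncard_le_ncard (fun k hk => ?_) (Set.Finite.inter_of_left (by
        rw [FamD_eq]
        exact finite_toSet _) _)
      rw [mem_coe, mem_filter] at hk
      refine hsub _ _ f k hf.ne_zero ?_ hk.2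
      rw [FamD_eq, mem_coe]
      exact hk.1

end Pool.Agent.Results.MP_775b3b_nt.RankQuadraticFields
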