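import Mathlib
import Pool.Agent.W307.RT.Tors
import Pool.Agent.Y669.MainC

/-!
# The multiplicities of the characters of 2-power order in `E(F) ⊗ ℂ`

Let `F` be a cyclotomic field and `χ ≠ 1` a homomorphism of its Galois group to `ℂˣ` whose order is
a power of two. The average of `4 ^ m_χ(E)` over the elliptic curves `E` over `ℚ` with full rational
2-torsion of height at most `H` is bounded as `H` varies, where `m_χ(E)` is the multiplicity of `χ`
in `E(F) ⊗ ℂ`. The number of the curves tends to infinity with `H`.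
-/

namespace Pool.Agent.Results.MP_775b3b_nt.TwoPowerCharacters

open Finset Filter WeierstrassCurve TensorProduct

/-- the curve `y² = x³ + A x + B` over `ℚ` -/
def E (A B : ℤ) : WeierstrassCurve ℚ := ⟨0, 0, 0, (A : ℚ), (B : ℚ)⟩

open Classical in
/-- The pairs `(A, B)` of integers such that `4 A³ + 27 B² ≠ 0`, there is no prime `p` with
`p⁴ ∣ A` and `p⁶ ∣ B`, the height `max (4 |A|³) (27 B²)` is at most `H`, and `Z/2 x Z/2` embeds in
the group of the rational points of `y² = x³ + A x + B`. (The bounds `|A|, |B| ≤ H` follow from the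
bound of the height. Every elliptic curve over `ℚ` is isomorphic to `E A B` for exactly one pair
with the first two properties.) -/
noncomputable def Fam (H : ℕ) : Finset (ℤ × ℤ) :=
  ((Icc (-(H : ℤ)) H) ×ˢ (Icc (-(H : ℤ)) H)).filter (fun c : ℤ × ℤ =>
    4 * c.1 ^ 3 + 27 * c.2 ^ 2 ≠ 0 ∧ 4 * |c.1| ^ 3 ≤ H ∧ 27 * c.2 ^ 2 ≤ H ∧
    (∀ p : ℕ, p.Prime → ¬ ((p : ℤ) ^ 4 ∣ c.1 ∧ (p : ℤ) ^ 6 ∣ c.2)) ∧
    ∃ f : ZMod 2 × ZMod 2 →+ (E c.1 c.2).toAffine.Point, Function.Injective f)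

open Classical in
/-- The subspace of the vectors `v` of `ℂ ⊗ W(F)` with `σ v = χ(σ) v` for all `σ`. -/
noncomputable def Part (F : Type) [Field F] [NumberField F] (χ : (F ≃ₐ[ℚ] F) →* ℂˣ)
    (W : WeierstrassCurve ℚ) : Submodule ℂ (ℂ ⊗[ℤ] (W.baseChange F).toAffine.Point) where
  carrier := {v | ∀ σ : F ≃ₐ[ℚ] F, LinearMap.baseChange ℂ
    (Affine.Point.map (W' := W.toAffine) (σ : F →ₐ[ℚ] F)).toIntLinearMap v = ((χ σ : ℂˣ) : ℂ) • v}
  zero_mem' := fun σ => by rw [map_zero, smul_zero]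
  add_mem' := fun {v w} hv hw σ => by rw [map_add, hv σ, hw σ, smul_add]
  smul_mem' := fun c v hv σ => by rw [map_smul, hv σ, smul_comm]

open Classical in
/-- The multiplicity of the one-dimensional representation `χ` in `E(F) ⊗ ℂ`. -/
noncomputable def mult (F : Type) [Field F] [NumberField F] (χ : (F ≃ₐ[ℚ] F) →* ℂˣ)
    (W : WeierstrassCurve ℚ) : ℕ :=
  Module.finrank ℂ (Part F χ W)

lemma Fam_eq (H : ℕ) : Fam H = Pool.Agent.W307.RT.Cv 2 H := by
  classical
  unfold Fam Pool.Agent.W307.RT.Cv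
  apply filter_congr
  intro c _
  have h : Pool.Agent.W307.RT.HasT 2 (Pool.Agent.W307.RT.Sh c.1 c.2) ↔
      ∃ f : ZMod 2 × ZMod 2 →+ (E c.1 c.2).toAffine.Point, Function.Injective f :=
    Pool.Agent.W307.RT.tors_iff
  rw [h]

/-- The number of these curves of height at most `H` tends to infinity. -/
theorem card_tendsto : Tendsto (fun H : ℕ => (Fam H).card) atTop atTop := by
  simp only [Fam_eq]
  exact Pool.Agent.W307.RT.tendsto_of_low Pool.Agent.W672.FK.lowf

/-- **Theorem.** Let `F = ℚ(ζ_N)`, `χ : Gal(F/ℚ) → ℂˣ` a nontrivial homomorphism with `χ ^ (2 ^ k)`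
trivial for some `k`. Then the sum of `4 ^ m_χ(E)` over the elliptic curves `E` over `ℚ` with full
rational 2-torsion and height at most `H` is at most `C` times their number, for a constant `C`
that does not depend on `H`. -/
theorem result (N : ℕ) [NeZero N] (F : Type) [Field F] [NumberField F]
    [IsCyclotomicExtension {N} ℚ F] (χ : (F ≃ₐ[ℚ] F) →* ℂˣ) (hχ : ∃ σ, χ σ ≠ 1) (k : ℕ)
    (hk : ∀ σ, χ σ ^ (2 ^ k) = 1) :
    ∃ C : ℝ, ∀ H : ℕ, ∑ c ∈ Fam H, (4 : ℝ) ^ mult F χ (E c.1 c.2) ≤ C * (Fam H).card := by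
  classical
  simp only [Fam_eq]
  have hex : ∃ k : ℕ, ∀ σ, χ σ ^ (2 ^ k) = 1 := ⟨k, hk⟩
  obtain ⟨b, hb⟩ : ∃ b, b = Nat.find hex := ⟨_, rfl⟩
  have h1 := Nat.find_spec hex
  rw [← hb] at h1
  rcases b with _ | a
  · obtain ⟨σ, hσ⟩ := hχ
    exact absurd (by simpa using h1 σ) hσ
  · have h2 : ∃ σ, χ σ ^ (2 ^ a) ≠ 1 := by
      by_contra hcon
      push Not at hcon
      have := Nat.find_min' hex hcon
      omega
    exact Pool.Agent.Y669.avg_char N χ a h1 h2

end Pool.Agent.Results.MP_775b3b_nt.TwoPowerCharacters
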